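import Mathlib
import Pool.Agent.H.MP_a61939_al.A

set_option autoImplicit false

namespace Pool.Agent.Results.MP_a61939_al.Transitions

/-- The group `ℤ × ℤ/2ℤ`. -/
abbrev G : Type := ℤ × ZMod 2

/-- `x` is a sum of `k` elements of `A ∪ (-A)`. -/
def IsSum (A : Set G) (k : ℕ) (x : G) : Prop :=
  ∃ l : List G, l.length = k ∧ (∀ y ∈ l, y ∈ A ∨ -y ∈ A) ∧ l.sum = x

/-- The word length `ℓ_A(x)`: the least such `k`, and `∞` if there is none. -/
noncomputable def wlen (A : Set G) (x : G) : ℕ∞ :=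
  sInf {m : ℕ∞ | ∃ k : ℕ, m = k ∧ IsSum A k x}

/-- The sphere `S_A(r)`. -/
def Sph (A : Set G) (r : ℕ) : Set G := {x | wlen A x = (r : ℕ∞)}

/-- Some infinite generating set `A` has `r` as the largest radius of a nonempty sphere, and
`S` is that sphere: `S` is the transition set of `A` and the phase transition is `(r, |S|)`. -/
def Realises (S : Set G) (r : ℕ) : Prop :=
  ∃ A : Set G, A.Infinite ∧ (∀ x, wlen A x < ⊤) ∧
    IsGreatest {r' : ℕ | (Sph A r').Nonempty} r ∧ Sph A r = S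

/-- `S` is nonempty, symmetric and does not contain `0`. -/
def Symm (S : Set G) : Prop := S.Nonempty ∧ (0 : G) ∉ S ∧ ∀ x ∈ S, -x ∈ S

/-- Every element of `G` is a sum of two elements outside `S`. -/
def CoBasis (S : Set G) : Prop := ∀ x : G, ∃ y z, y ∉ S ∧ z ∉ S ∧ x = y + z

open Pool.Agent.Ha619 in
theorem result :
    (∀ (r : ℕ) (s : ℕ∞), (∃ S, Realises S r ∧ S.encard = s) ↔
      (s = ⊤ ∧ 1 ≤ r) ∨ (1 ≤ s ∧ s ≠ ⊤ ∧ 2 ≤ r)) ∧
    (∀ S, (∃ r, Realises S r) ↔ S = {0}ᶜ ∨ (Symm S ∧ CoBasis S)) ∧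
    (∀ S, S.Finite → ∀ r, (Realises S r ↔ Symm S ∧ 2 ≤ r)) ∧
    (∀ S, ¬ Realises S 0) ∧ (∀ S, Realises S 1 ↔ S = {0}ᶜ) ∧
    (∀ S, Realises S 2 ↔ Symm S ∧ CoBasis S) ∧
    (∀ S r, 2 ≤ r → Realises S r → Realises S 2) := by
  have hiff : ∀ (A : Set G) (k : ℕ) (x : G), IsSum A k x ↔ Rep {y | y ∈ A ∨ -y ∈ A} k x := by
    intro A k
    induction k with
    | zero =>
      intro x
      constructor
      · rintro ⟨l, h1, -, rfl⟩
        rw [List.length_eq_zero_iff.mp h1]; rfl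
      · intro hx
        exact ⟨[], rfl, by simp, hx.symm⟩
    | succ k ih =>
      intro x
      constructor
      · rintro ⟨l, h1, h2, rfl⟩
        obtain ⟨y, l, rfl⟩ := List.exists_cons_of_length_eq_add_one h1
        exact ⟨y, h2 y (by simp),
          (ih _).mp ⟨l, by simpa using h1, fun z hz => h2 z (by simp [hz]), by simp⟩⟩
      · rintro ⟨s, a, hx⟩
        obtain ⟨l, h1, h2, h3⟩ := (ih _).mpr hx
        refine ⟨s :: l, by simp [h1], ?_, by simp [h3]⟩
        intro y hy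
        rcases List.mem_cons.mp hy with rfl | hy
        · exact a
        · exact h2 y hy
  have hle : ∀ (A : Set G) (r : ℕ) (x : G),
      wlen A x ≤ r ↔ ∃ k ≤ r, Rep {y | y ∈ A ∨ -y ∈ A} k x := by
    intro A r x
    constructor
    · intro h
      by_contra hc
      push Not at hc
      have : ((r + 1 : ℕ) : ℕ∞) ≤ wlen A x := by
        refine le_sInf ?_
        rintro _ ⟨k, rfl, hk⟩
        have : ¬ k ≤ r := fun h' => hc k h' ((hiff A k x).mp hk)
        exact_mod_cast (by omega : r + 1 ≤ k)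
      have : r + 1 ≤ r := by exact_mod_cast this.trans h
      omega
    · rintro ⟨k, hk, h⟩
      have a : wlen A x ≤ k := sInf_le ⟨k, rfl, (hiff A k x).mpr h⟩
      exact a.trans (by exact_mod_cast hk)
  have hall : ∀ (A : Set G) (r : ℕ), (∀ x, wlen A x < ⊤) →
      IsGreatest {r' : ℕ | (Sph A r').Nonempty} r → ∀ x, wlen A x ≤ r := by
    intro A r h1 h2 x
    obtain ⟨k, hk⟩ := ENat.ne_top_iff_exists.mp (h1 x).ne
    rw [← hk]
    exact_mod_cast h2.2 ⟨x, hk.symm⟩
  have hsucc : ∀ (m : ℕ∞) (h : ℕ), m = (h + 1 : ℕ) ↔ m ≤ (h + 1 : ℕ) ∧ ¬ m ≤ h := by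
    intro m h
    induction m using ENat.recTopCoe with
    | top => simp [-Nat.cast_add]
    | coe m => norm_cast; omega
  have key : ∀ (S : Set G) (h : ℕ), Realises S (h + 1) ↔ S.Nonempty ∧ ∃ T : Set G, T.Infinite ∧
      (∀ x ∈ T, -x ∈ T) ∧ (∀ k ≤ h, ∀ w ∈ S, ¬ Rep T k w) ∧ (∀ n ∉ S, ∃ k ≤ h, Rep T k n) ∧
      ∀ w ∈ S, Rep T (h + 1) w := by
    intro S h
    constructor
    · rintro ⟨A, a1, a2, a3, rfl⟩
      have b1 : ∀ k ≤ h, ∀ w ∈ Sph A (h + 1), ¬ Rep {y | y ∈ A ∨ -y ∈ A} k w :=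
        fun k hk w hw hr => ((hsucc _ _).mp hw).2 ((hle A h w).mpr ⟨k, hk, hr⟩)
      refine ⟨a3.1, {y | y ∈ A ∨ -y ∈ A}, a1.mono fun y hy => Or.inl hy, ?_, b1, ?_, ?_⟩
      · rintro x (hx | hx)
        · exact Or.inr (by simpa using hx)
        · exact Or.inl hx
      · intro n hn
        refine (hle A h n).mp ?_
        by_contra hc
        exact hn ((hsucc _ _).mpr ⟨hall A _ a2 a3 n, hc⟩)
      · intro w hw
        obtain ⟨k, hk, hr⟩ := (hle A _ w).mp (hall A _ a2 a3 w)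
        have : ¬ k ≤ h := fun hc => b1 k hc w hw hr
        rwa [show h + 1 = k by omega]
    · rintro ⟨hS, T, a1, a2, a3, a4, a5⟩
      have e : {y | y ∈ T ∨ -y ∈ T} = T := by
        ext y
        exact ⟨fun hy => hy.elim id fun hy => by simpa using a2 _ hy, Or.inl⟩
      have b1 : ∀ x, wlen T x ≤ (h + 1 : ℕ) := by
        intro x
        rw [hle, e]
        by_cases hx : x ∈ S
        · exact ⟨_, le_rfl, a5 x hx⟩
        · obtain ⟨k, hk, hr⟩ := a4 x hx
          exact ⟨k, by omega, hr⟩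
      have b2 : Sph T (h + 1) = S := by
        ext x
        refine (hsucc _ _).trans ?_
        rw [hle T h, e]
        constructor
        · rintro ⟨-, hx⟩
          by_contra hc
          exact hx (a4 x hc)
        · rintro hx
          exact ⟨b1 x, fun ⟨k, hk, hr⟩ => a3 k hk x hx hr⟩
      refine ⟨T, a1, fun x => (b1 x).trans_lt (ENat.natCast_lt_top _), ⟨?_, ?_⟩, b2⟩
      · show (Sph T (h + 1)).Nonempty
        rwa [b2]
      · rintro k ⟨x, hx⟩
        have := b1 x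
        rw [show wlen T x = k from hx] at this
        exact_mod_cast this
  have h0 : ∀ S, ¬ Realises S 0 := by
    rintro S ⟨A, -, a2, a3, -⟩
    obtain ⟨k, hk, hr⟩ := (hle A 0 (1, 0)).mp (hall A 0 a2 a3 _)
    obtain rfl : k = 0 := by omega
    simp [Ha619.Rep] at hr
  have h1 : ∀ S, Realises S 1 ↔ S = {0}ᶜ := by
    intro S
    rw [key S 0]
    constructor
    · rintro ⟨-, T, -, -, a3, a4, -⟩
      ext x
      constructor
      · intro hx hc
        exact a3 0 le_rfl x hx hc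
      · intro hx
        by_contra hc
        obtain ⟨k, hk, hr⟩ := a4 x hc
        obtain rfl : k = 0 := by omega
        exact hx hr
    · rintro rfl
      refine ⟨⟨(1, 0), by simp⟩, Set.univ, Set.infinite_univ, by simp, ?_, ?_, ?_⟩
      · intro k hk w hw hr
        obtain rfl : k = 0 := by omega
        exact hw hr
      · intro n hn
        exact ⟨0, le_rfl, by simpa [Ha619.Rep] using hn⟩
      · intro w _
        exact ⟨w, trivial, by simp [Ha619.Rep]⟩
  have h2 : ∀ S r, 2 ≤ r → Realises S r → Symm S ∧ CoBasis S := by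
    intro S r hr hS
    obtain ⟨h, rfl⟩ : ∃ h, r = h + 1 := ⟨r - 1, by omega⟩
    obtain ⟨hne, T, -, a2, a3, a4, a5⟩ := (key S h).mp hS
    have z : (0 : G) ∉ S := fun hc => a3 0 (by omega) 0 hc rfl
    refine ⟨⟨hne, z, fun x hx => ?_⟩, fun x => ?_⟩
    · by_contra hc
      obtain ⟨k, hk, hr⟩ := a4 _ hc
      exact a3 k hk x hx (by simpa using Rep_neg a2 hr)
    · by_cases hx : x ∈ S
      · obtain ⟨s, hs, hr⟩ := a5 x hx
        exact ⟨s, x - s, fun hc => a3 1 (by omega) s hc ⟨s, hs, by simp [Ha619.Rep]⟩,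
          fun hc => a3 h le_rfl _ hc hr, by simp⟩
      · exact ⟨x, 0, hx, z, by simp⟩
  have h3 : ∀ S, Symm S ∧ CoBasis S → Realises S 2 := by
    rintro S ⟨⟨a1, a2, a3⟩, a4⟩
    refine (key S 1).mpr ⟨a1, Sᶜ, ?_, ?_, ?_, ?_, ?_⟩
    · intro hf
      refine Set.infinite_univ ((hf.image2 (· + ·) hf).subset fun x _ => ?_)
      obtain ⟨y, z, b1, b2, rfl⟩ := a4 x
      exact ⟨y, b1, z, b2, rfl⟩
    · intro x hx hc
      exact hx (by simpa using a3 _ hc)
    · intro k hk w hw hr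
      rcases (by omega : k = 0 ∨ k = 1) with rfl | rfl
      · exact a2 ((show w = 0 from hr) ▸ hw)
      · obtain ⟨s, hs, hr⟩ := hr
        exact hs (sub_eq_zero.mp hr ▸ hw)
    · intro n hn
      exact ⟨1, le_rfl, n, hn, by simp [Ha619.Rep]⟩
    · intro w _
      obtain ⟨y, z, b1, b2, rfl⟩ := a4 w
      exact ⟨y, b1, z, b2, by simp [Ha619.Rep]⟩
  have hinf : (({0} : Set G)ᶜ).Infinite := (Set.finite_singleton _).infinite_compl
  have h4 : ∀ S : Set G, S.Finite → ∀ r, (Realises S r ↔ Symm S ∧ 2 ≤ r) := by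
    intro S hS r
    constructor
    · intro h
      have : 2 ≤ r := by
        by_contra hc
        rcases (by omega : r = 0 ∨ r = 1) with rfl | rfl
        · exact h0 S h
        · exact hinf ((h1 S).mp h ▸ hS)
      exact ⟨(h2 S r this h).1, this⟩
    · rintro ⟨⟨a1, a2, a3⟩, hr⟩
      obtain ⟨h, rfl⟩ : ∃ h, r = h + 1 := ⟨r - 1, by omega⟩
      obtain ⟨T, b1, b2, b3, b4, b5⟩ := exists_set (AddMonoidHom.fst ℤ (ZMod 2)) (1, 0) rfl h
        (by omega) S hS a2 a3
      exact (key S h).mpr ⟨a1, T, b1, b2, b3, fun n hn => ⟨h, le_rfl, b4 n hn⟩, b5⟩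
  have h5 : ∀ h : ℕ, Realises {x : G | 2 * ((h : ℤ) + 2) ∣ x.1 - (h + 2)} (h + 1 + 1) := by
    intro h
    obtain ⟨m, hm⟩ : ∃ m : ℤ, m = 2 * ((h : ℤ) + 2) := ⟨_, rfl⟩
    rw [← hm]
    have c1 : ∀ (k : ℕ) (x : G) (Y : ℤ), |Y| ≤ k + 1 → m ∣ x.1 - Y →
        Rep {x : G | ∃ y : ℤ, |y| ≤ 1 ∧ m ∣ x.1 - y} (k + 1) x := by
      intro k
      induction k with
      | zero => intro x Y a b; exact ⟨x, ⟨Y, by simpa using a, b⟩, by simp [Ha619.Rep]⟩
      | succ k ih =>
        intro x Y a b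
        push_cast at a
        rw [abs_le] at a
        rcases le_total 0 Y with c | c
        · exact ⟨(1, 0), ⟨1, by simp, by simp⟩, ih _ (Y - 1) (abs_le.mpr ⟨by omega, by omega⟩)
            (by simpa using b)⟩
        · exact ⟨(-1, 0), ⟨-1, by simp, by simp⟩, ih _ (Y + 1) (abs_le.mpr ⟨by omega, by omega⟩)
            (by simpa using b)⟩
    have c2 : ∀ (k : ℕ) (x : G), Rep {x : G | ∃ y : ℤ, |y| ≤ 1 ∧ m ∣ x.1 - y} k x →
        ∃ Y : ℤ, |Y| ≤ k ∧ m ∣ x.1 - Y := by
      intro k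
      induction k with
      | zero => intro x hx; exact ⟨0, by simp, by rw [show x = 0 from hx]; simp⟩
      | succ k ih =>
        rintro x ⟨s, ⟨y, a, b⟩, hx⟩
        obtain ⟨Y, c, d⟩ := ih _ hx
        refine ⟨Y + y, ?_, ?_⟩
        · have := abs_add_le Y y
          push_cast; linarith
        · have e : x.1 - (Y + y) = (x - s).1 - Y + (s.1 - y) := by rw [Prod.fst_sub]; ring
          rw [e]; exact d.add b
    refine (key _ (h + 1)).mpr ⟨⟨((h : ℤ) + 2, 0), by simp⟩,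
      {x : G | ∃ y : ℤ, |y| ≤ 1 ∧ m ∣ x.1 - y}, ?_, ?_, ?_, ?_, ?_⟩
    · refine Set.infinite_of_injective_forall_mem (f := fun t : ℤ => ((m * t, 0) : G)) ?_
        fun t => ⟨0, by simp, by simp⟩
      intro s t hst
      exact mul_left_cancel₀ (by omega : m ≠ 0) (congrArg Prod.fst hst)
    · rintro x ⟨y, a, b⟩
      refine ⟨-y, by simpa using a, ?_⟩
      have e : (-x).1 - -y = -(x.1 - y) := by rw [Prod.fst_neg]; ring
      rw [e]; exact b.neg_right
    · intro k hk w hw hr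
      obtain ⟨Y, a, b⟩ := c2 k w hr
      have c : m ∣ (h + 2) - Y := by
        have e : (h : ℤ) + 2 - Y = w.1 - Y - (w.1 - (h + 2)) := by ring
        rw [e]; exact b.sub hw
      rw [abs_le] at a
      have := Int.eq_zero_of_abs_lt_dvd c (abs_lt.mpr ⟨by omega, by omega⟩)
      omega
    · intro n hn
      have b1 := Int.emod_nonneg (n.1 - (h + 2)) (by omega : m ≠ 0)
      have b2 := Int.emod_lt_of_pos (n.1 - (h + 2)) (by omega : 0 < m)
      have b3 : (n.1 - (h + 2)) % m ≠ 0 := fun hc => hn (Int.dvd_of_emod_eq_zero hc)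
      have b4 := Int.mul_ediv_add_emod (n.1 - (h + 2)) m
      refine ⟨h + 1, le_rfl, c1 h n ((n.1 - (h + 2)) % m - (h + 2))
        (abs_le.mpr ⟨by omega, by omega⟩) ⟨(n.1 - (h + 2)) / m + 1, ?_⟩⟩
      linear_combination -b4 - hm
    · intro w hw
      exact c1 (h + 1) w (h + 2) (by rw [abs_of_pos (by omega)]; push_cast; omega) hw
  refine ⟨fun r s => ⟨?_, ?_⟩, fun S => ⟨?_, ?_⟩, h4, h0, h1,
    fun S => ⟨h2 S 2 le_rfl, h3 S⟩, fun S r hr h => h3 S (h2 S r hr h)⟩
  · rintro ⟨S, a, rfl⟩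
    by_cases hS : S.Finite
    · obtain ⟨b1, b2⟩ := (h4 S hS r).mp a
      exact Or.inr ⟨Set.one_le_encard_iff_nonempty.mpr b1.1, hS.encard_lt_top.ne, b2⟩
    · refine Or.inl ⟨Set.Infinite.encard_eq hS, ?_⟩
      by_contra hc
      obtain rfl : r = 0 := by omega
      exact h0 S a
  · rintro (⟨rfl, hr⟩ | ⟨a, b, hr⟩)
    · rcases Nat.lt_or_ge r 2 with c | c
      · obtain rfl : r = 1 := by omega
        exact ⟨_, (h1 _).mpr rfl, hinf.encard_eq⟩
      · obtain ⟨h, rfl⟩ : ∃ h, r = h + 1 + 1 := ⟨r - 2, by omega⟩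
        refine ⟨_, h5 h, Set.Infinite.encard_eq ?_⟩
        refine Set.infinite_of_injective_forall_mem
          (f := fun t : ℤ => ((h + 2 + 2 * ((h : ℤ) + 2) * t, 0) : G)) ?_ fun t => by simp
        intro s t hst
        have := congrArg Prod.fst hst
        exact mul_left_cancel₀ (by omega : 2 * ((h : ℤ) + 2) ≠ 0) (by simpa using this)
    · obtain ⟨s, rfl⟩ := ENat.ne_top_iff_exists.mp b
      have hs : 1 ≤ s := by exact_mod_cast a
      have inj : Function.Injective fun k : ℤ => ((k, 1) : G) := fun _ _ h => congrArg Prod.fst h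
      have fin : ∀ F : Finset ℤ, F.card = s → (∀ k ∈ F, -k ∈ F) →
          ∃ S, Realises S r ∧ S.encard = s := by
        intro F c1 c2
        refine ⟨(fun k : ℤ => ((k, 1) : G)) '' F, (h4 _ (F.finite_toSet.image _) r).mpr
          ⟨⟨(Finset.card_pos.mp (by omega)).to_set.image _, by simp, ?_⟩, hr⟩, ?_⟩
        · rintro _ ⟨k, hk, rfl⟩
          exact ⟨-k, c2 k hk, rfl⟩
        · rw [inj.encard_image, Set.encard_coe_eq_coe_finsetCard, c1]
      obtain ⟨t, rfl | rfl⟩ := Nat.even_or_odd' s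
      · refine fin ((Finset.Icc (-(t : ℤ)) t).erase 0) ?_ ?_
        · rw [Finset.card_erase_of_mem (by simp), Int.card_Icc]; omega
        · intro k hk
          simp only [Finset.mem_erase, Finset.mem_Icc] at hk ⊢
          omega
      · refine fin (Finset.Icc (-(t : ℤ)) t) ?_ ?_
        · rw [Int.card_Icc]; omega
        · intro k hk
          simp only [Finset.mem_Icc] at hk ⊢
          omega
  · rintro ⟨r, h⟩
    rcases Nat.lt_or_ge r 2 with c | c
    · rcases (by omega : r = 0 ∨ r = 1) with rfl | rfl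
      · exact absurd h (h0 S)
      · exact Or.inl ((h1 S).mp h)
    · exact Or.inr (h2 S r c h)
  · rintro (h | h)
    · exact ⟨1, (h1 S).mpr h⟩
    · exact ⟨2, h3 S h⟩

end Pool.Agent.Results.MP_a61939_al.Transitions
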